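import Pool.Agent.Helper10.HS.GoalsL
import Pool.Agent.Helper10.SP.WIRT
import Pool.Agent.Helper31.SP.SPEC
import Pool.Agent.Helper95.RK.Basics
import Pool.Agent.Helper9.RK.ParK
import Pool.Agent.Helper16.RK.Calc
import Pool.Agent.Helper29.RK.LDET

/-! # Packet HS-FLD: a flat Kähler metric, all directions are fibre directions -/

open Complex Metric Set Filter Topology MeasureTheory
open scoped ContDiff ComplexConjugate ComplexOrder Manifold Matrix

namespace Pool.Agent.Helper24.HS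

open Pool.Agent.Helper95.Lin Pool.Agent.Helper16.Abund Pool.Agent.Helper92.Orb
open Pool.Agent.Helper10.SP Pool.Agent.Helper95.RK Pool.Agent.Helper15.RK
open Pool.Agent.Helper57.HS Pool.Agent.Helper10.RK Pool.Agent.Helper10.HS

universe u v

section det

variable {n : ℕ}

lemma det_conj (D : Matrix (Fin n) (Fin n) ℂ) : (D.map star).det = star D.det := by
  have h2 : D.map star = (Dᴴ)ᵀ := by
    ext i j
    simp [Matrix.conjTranspose_apply]
  rw [h2, Matrix.det_transpose, Matrix.det_conjTranspose]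

lemma det_sand (A D : Matrix (Fin n) (Fin n) ℂ) :
    (Dᵀ * A * D.map star).det = A.det * ((‖D.det‖ ^ 2 : ℝ) : ℂ) := by
  rw [Matrix.det_mul, Matrix.det_mul, Matrix.det_transpose, det_conj]
  have h1 : D.det * star D.det = ((‖D.det‖ ^ 2 : ℝ) : ℂ) := by
    rw [show star D.det = conj D.det from rfl, Complex.mul_conj, Complex.normSq_eq_norm_sq]
  rw [← h1]
  ring

variable {M : Type v} [TopologicalSpace M] [ChartedSpace (Fin n → ℂ) M]

lemma det_pm (h : M → Matrix (Fin n) (Fin n) ℂ) (ψ : Cn n → M) (x : Cn n) :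
    (pm n h ψ x).det = (h (ψ x)).det * ((‖jac n ψ x‖ ^ 2 : ℝ) : ℂ) := by
  rw [Pool.Agent.Helper9.RK.pm_eq_pull]
  unfold Pool.Agent.Helper3.SP.pull
  rw [det_sand, Pool.Agent.Helper3.SP.dmat_det]

lemma det_inv (h : M → Matrix (Fin n) (Fin n) ℂ) (T : M → M) (hT : InvMetric n h T) (x : M) :
    (h x).det = (h (T x)).det * ((‖jac n T x‖ ^ 2 : ℝ) : ℂ) := by
  set D : Matrix (Fin n) (Fin n) ℂ :=
    LinearMap.toMatrix' (tmap n T x : (Fin n → ℂ) →ₗ[ℂ] (Fin n → ℂ)) with hD
  have hv : ∀ u, D *ᵥ u = tvec n T x u := by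
    intro u
    rw [hD, LinearMap.toMatrix'_mulVec]
    rfl
  have hdet : D.det = jac n T x := by
    rw [hD, LinearMap.det_toMatrix']
    rfl
  have hA : Dᵀ * h (T x) * D.map star = h x := by
    ext i j
    rw [← Pool.Agent.Helper9.RK.hermi_single (Dᵀ * h (T x) * D.map star) i j,
      ← Pool.Agent.Helper9.RK.hermi_single (h x) i j]
    have h1 := hT x (Pi.single i 1) (Pi.single j 1)
    rw [← hv, ← hv, Pool.Agent.Helper3.SP.herm_mulVec] at h1
    exact h1
  rw [← hdet, ← det_sand, hA]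

end det

section flat

variable {n : ℕ} {W : Set (Cn n)} {H : Cn n → Matrix (Fin n) (Fin n) ℂ}

/-- The Levi matrix of the logarithm of the determinant of a flat metric vanishes. -/
lemma LM_ld (hW : IsOpen W) (hs : ∀ i j, ContDiffOn ℝ ∞ (fun x => H x i j) W)
    (hp : ∀ x ∈ W, (H x).PosDef) (hcrv : ∀ x ∈ W, ∀ i j l m, crv H x i j l m = 0)
    {x : Cn n} (hx : x ∈ W) (j l : Fin n) : LM (ld H) x j l = 0 := by
  have hdet : ∀ z ∈ W, 0 < (H z).det.re ∧ (H z).det.im = 0 := by
    intro z hz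
    have := (hp z hz).det_pos
    rw [Complex.lt_def] at this
    exact ⟨this.1, this.2.symm⟩
  have hne : ∀ z ∈ W, (H z).det ≠ 0 := fun z hz => (hp z hz).det_pos.ne'
  have h1 := Pool.Agent.Helper29.RK.LM_logdet hW hs
    (fun p q => Pool.Agent.Helper16.RK.inv_smooth H hs hne p q) hdet hx j l
  have h2 : (Matrix.of fun p q => cd j (cdb l (fun y => H y p q)) x) =
      cdM j H x * (H x)⁻¹ * cdbM l H x := by
    ext p q
    have := hcrv x hx p q j l
    unfold crv at this
    rw [Matrix.of_apply]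
    linear_combination -this
  have h3 : LM (ld H) x j l = LM (fun y => Real.log (H y).det.re) x j l := rfl
  rw [h3, h1, h2]
  have h4 : (H x)⁻¹ * (cdM j H x * (H x)⁻¹ * cdbM l H x) =
      (H x)⁻¹ * cdM j H x * (H x)⁻¹ * cdbM l H x := by
    simp only [Matrix.mul_assoc]
  rw [h4]
  exact sub_self _

/-- The connection of a flat metric is holomorphic. -/
lemma cdb_Gam (hWIRT : S_WIRT) (hW : IsOpen W)
    (hs : ∀ i j, ContDiffOn ℝ ∞ (fun x => H x i j) W)
    (hp : ∀ x ∈ W, (H x).PosDef) (hcrv : ∀ x ∈ W, ∀ i j l m, crv H x i j l m = 0)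
    {x : Cn n} (hx : x ∈ W) (k l i j : Fin n) : cdb l (fun y => Gam H k y i j) x = 0 := by
  have hne : ∀ z ∈ W, (H z).det ≠ 0 := fun z hz => (hp z hz).det_pos.ne'
  have hi : ∀ p q, ContDiffOn ℝ ∞ (fun y => (H y)⁻¹ p q) W := fun p q =>
    Pool.Agent.Helper16.RK.inv_smooth H hs hne p q
  have hC : ∀ p q, ContDiffOn ℝ ∞ (fun y => cdM k H y p q) W := fun p q =>
    Wirt.cd_smooth hW (hs p q) k
  have hu : IsUnit (H x).det := (hne x hx).isUnit
  -- `H = Γ⁻¹ C`: differentiate `Γ H = C`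
  have hG : ∀ p q, ContDiffOn ℝ ∞ (fun y => Gam H k y p q) W := by
    intro p q
    have : (fun y => Gam H k y p q) = fun y => ∑ r, cdM k H y p r * (H y)⁻¹ r q := rfl
    rw [this]
    exact ContDiffOn.sum fun r _ => (hC p r).mul (hi r q)
  obtain ⟨D, hD⟩ : ∃ D : Matrix (Fin n) (Fin n) ℂ,
    D = Matrix.of fun p q => cdb l (fun y => Gam H k y p q) x := ⟨_, rfl⟩
  have h1 : Gam H k x * cdbM l H x + D * H x =
      Matrix.of fun p q => cdb l (fun y => cdM k H y p q) x := by
    ext p q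
    have e : (fun y => ∑ r, Gam H k y p r * H y r q) =ᶠ[𝓝 x] fun y => cdM k H y p q := by
      filter_upwards [hW.mem_nhds hx] with y hy
      have h5 : Gam H k y * H y = cdM k H y :=
        Matrix.nonsing_inv_mul_cancel_right _ _ (hne y hy).isUnit
      rw [← h5]
      rfl
    have h2 := Pool.Agent.Helper29.RK.cdb_congr e l
    rw [Pool.Agent.Helper29.RK.cdb_sum Finset.univ
      (fun r _ => (Wirt.dAt hW (hG p r) hx).fun_mul (Wirt.dAt hW (hs r q) hx)),
      Finset.sum_congr rfl (fun r _ =>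
        Pool.Agent.Helper29.RK.cdb_mul (Wirt.dAt hW (hG p r) hx) (Wirt.dAt hW (hs r q) hx) l),
      Finset.sum_add_distrib] at h2
    rw [Matrix.add_apply, Matrix.mul_apply, Matrix.mul_apply, Matrix.of_apply, ← h2, hD]
    simp only [Matrix.of_apply, cdbM]
    congr 1
    exact Finset.sum_congr rfl fun r _ => mul_comm _ _
  have h3 : (Matrix.of fun p q => cdb l (fun y => cdM k H y p q) x) =
      Gam H k x * cdbM l H x := by
    ext p q
    have := hcrv x hx p q k l
    unfold crv at this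
    have h4 := ((hWIRT W hW _ _ (hs p q) (hs p q)).2.2.2.2.1 k l x hx).2.2
    rw [Matrix.of_apply]
    have h5 : (fun y => cdM k H y p q) = cd k (fun y => H y p q) := rfl
    rw [h5, ← h4]
    have h6 : Gam H k x * cdbM l H x = cdM k H x * (H x)⁻¹ * cdbM l H x := rfl
    rw [h6]
    linear_combination -this
  rw [h3] at h1
  have h4 : D * H x = 0 := by
    have := h1
    rwa [add_eq_left] at this
  have h5 : D = 0 := by
    have : D * H x * (H x)⁻¹ = D := Matrix.mul_nonsing_inv_cancel_right _ _ hu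
    rw [← this, h4, Matrix.zero_mul]
  have h6 : D i j = 0 := by rw [h5]; rfl
  rw [hD] at h6
  exact h6

end flat

theorem fld (hLMF : S_LMF) : S_FLD.{u, v} := by
  intro k G M _ _ _ _ _ _ _ h hD hcrv
  have hWIRT : S_WIRT := Pool.Agent.Helper10.SP.Wirt.wirt
  obtain ⟨hpos, hform⟩ := hD.kah
  -- facts about the pull back
  have hPM : ∀ (V : Set (Cn (0 + k))) (ψ : Cn (0 + k) → M), Par (0 + k) ψ V →
      (∀ x ∈ V, (pm (0 + k) h ψ x).PosDef) ∧
      (∀ i j, ContDiffOn ℝ ∞ (fun x => pm (0 + k) h ψ x i j) V) ∧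
      ∀ x ∈ V, ∀ i j l, cd l (fun y => pm (0 + k) h ψ y i j) x =
        cd i (fun y => pm (0 + k) h ψ y l j) x := by
    intro V ψ hψ
    have hp : ∀ x ∈ V, (pm (0 + k) h ψ x).PosDef := fun x hx =>
      Pool.Agent.Helper9.RK.pm_posDef hpos (hψ.2 x hx)
    obtain ⟨hs, hc⟩ := hform V ψ hψ.1
    obtain ⟨h1, h2⟩ := Pool.Agent.Helper19.Lin.closed_of_form hψ.1.1 (H := pm (0 + k) h ψ)
      (fun x hx => (hp x hx).1) (κ := metricForm (0 + k) h ψ) (by
        intro x hx u v
        unfold metricForm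
        rw [← Pool.Agent.Helper9.RK.hermi_pm]
        rfl) hs hc
    exact ⟨hp, h1, h2⟩
  set v : M → ℝ := fun p => (h p).det.re with hv
  have hlp : ∀ ψ : Cn (0 + k) → M, lpot (0 + k) v ψ = ld (pm (0 + k) h ψ) := by
    intro ψ
    funext x
    unfold lpot ld
    rw [det_pm, Complex.re_mul_ofReal]
  have hdet : ∀ (V : Set (Cn (0 + k))) (ψ : Cn (0 + k) → M), Par (0 + k) ψ V → ∀ x ∈ V,
      0 < (pm (0 + k) h ψ x).det.re ∧ (pm (0 + k) h ψ x).det.im = 0 := by
    intro V ψ hψ x hx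
    have := ((hPM V ψ hψ).1 x hx).det_pos
    rw [Complex.lt_def] at this
    exact ⟨this.1, this.2.symm⟩
  have hsm : ∀ (V : Set (Cn (0 + k))) (ψ : Cn (0 + k) → M), Par (0 + k) ψ V →
      ContDiffOn ℝ ∞ (lpot (0 + k) v ψ) V := by
    intro V ψ hψ
    rw [hlp]
    have h1 : ContDiffOn ℝ ∞ (fun x => (pm (0 + k) h ψ x).det) V :=
      Pool.Agent.Helper16.RK.det_smooth _ (hPM V ψ hψ).2.1
    have h2 : ContDiffOn ℝ ∞ (fun x => (pm (0 + k) h ψ x).det.re) V :=
      Complex.reCLM.contDiff.comp_contDiffOn h1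
    exact h2.log fun x hx => (hdet V ψ hψ x hx).1.ne'
  have hlev : ∀ (V : Set (Cn (0 + k))) (ψ : Cn (0 + k) → M), Par (0 + k) ψ V → ∀ x ∈ V, ∀ e,
      lev (lpot (0 + k) v ψ) x e = 0 := by
    intro V ψ hψ x hx e
    have h1 := (hLMF V hψ.1.1 _ (hsm V ψ hψ)).2.2.1 x hx e
    have h2 : LM (lpot (0 + k) v ψ) x = 0 := by
      ext j l
      rw [hlp]
      exact LM_ld hψ.1.1 (hPM V ψ hψ).2.1 (hPM V ψ hψ).1 (hcrv V ψ hψ) hx j l
    rw [h2] at h1
    have h3 : hermi (0 : Matrix (Fin (0 + k)) (Fin (0 + k)) ℂ) e e = 0 := by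
      unfold hermi
      simp
    rw [h3] at h1
    exact_mod_cast h1
  have hb0 : ∀ e : Cn (0 + k), base (b := 0) (k := k) e = 0 := fun e => Subsingleton.elim _ _
  refine ⟨v, ⟨hD.act, hD.proper, hD.kah, hD.inv, ⟨fun x => ?_, hsm⟩, ?_, ?_⟩, ?_⟩
  · have := (hpos x).det_pos
    rw [Complex.lt_def] at this
    exact this.1
  · intro γ x
    have h1 := det_inv h (fun y : M => γ • y) (hD.inv γ) x
    have h2 := congrArg Complex.re h1
    rw [Complex.re_mul_ofReal] at h2
    exact h2.symm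
  · intro V ψ hψ x hx
    refine ⟨fun e => (hlev V ψ hψ x hx e).ge, ⊤, ?_, fun e => ?_⟩
    · rw [finrank_top, Module.finrank_fin_fun, zero_add]
    · simp [hlev V ψ hψ x hx e]
  refine ⟨⟨hpos, fun V ψ hψ => (hform V ψ hψ).1⟩, hD.inv, ?_, ?_⟩
  · intro p
    set χ := chartAt (Fin (0 + k) → ℂ) p with hχ
    have hps : p ∈ χ.source := mem_chart_source _ p
    have hx₀ : χ p ∈ χ.target := χ.map_source hps
    have hPar₀ : Par (0 + k) (χ.symm : Cn (0 + k) → M) χ.target :=
      ⟨⟨χ.open_target, mdiff_chart_symm p⟩, fun z hz => jac_chart_symm_ne_zero p hz⟩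
    obtain ⟨r, hr, hball⟩ := Metric.isOpen_iff.1 χ.open_target _ hx₀
    have hset : prodK (ball (0 : Cn 0) r) (ball (0 : Cn k) r) ⊆ ball (0 : Cn (0 + k)) r := by
      rintro x ⟨-, h1⟩
      rw [mem_ball_zero_iff] at h1 ⊢
      rw [pi_norm_lt_iff hr] at h1 ⊢
      intro i
      refine Fin.addCases (fun a => a.elim0) (fun a => ?_) i
      exact h1 a
    have hm : MapsTo (fun x : Cn (0 + k) => x + χ p) (ball (0 : Cn (0 + k)) r) χ.target := by
      intro x hx
      refine hball ?_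
      rw [mem_ball, dist_eq_norm, add_sub_cancel_right]
      rw [mem_ball, dist_eq_norm, sub_zero] at hx
      exact hx
    have hder : ∀ x : Cn (0 + k), fderiv ℂ (fun x : Cn (0 + k) => x + χ p) x =
        ContinuousLinearMap.id ℂ (Cn (0 + k)) := by
      intro x
      rw [fderiv_add_const]
      exact fderiv_fun_id
    have hpar := (Pool.Agent.Helper31.SP.par_comp hPar₀ (isOpen_prodK isOpen_ball isOpen_ball)
      (σ := fun x : Cn (0 + k) => x + χ p) (by fun_prop) (hm.mono_left hset) (fun x _ => by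
        rw [hder x]
        simp [ContinuousLinearMap.det])).1
    refine ⟨r, hr, χ.symm ∘ fun x : Cn (0 + k) => x + χ p, ⟨hpar, ?_⟩, ?_, ?_⟩
    · intro x hx e
      simp [hlev _ _ hpar x hx e, hb0]
    · intro x hx y hy hxy
      have := χ.symm.injOn (hm (hset hx)) (hm (hset hy)) hxy
      exact add_right_cancel this
    · simp only [Function.comp_apply, zero_add]
      exact χ.left_inv hps
  · intro U Δ ψ hU hΔ hF
    have hψ := hF.1
    obtain ⟨hp, hs, hc⟩ := hPM _ ψ hψ
    set W := prodK U Δ with hW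
    set e : Fin k ≃ Fin (0 + k) := finCongr (zero_add k).symm with he
    have hee : ∀ i : Fin k, Fin.natAdd 0 i = e i := by
      intro i
      ext
      simp [he]
    have hfun : (Fin.natAdd 0 : Fin k → Fin (0 + k)) = e := funext hee
    have hgm : ∀ x, gm (b := 0) (k := k) h ψ x = (pm (0 + k) h ψ x).submatrix e e := by
      intro x
      unfold gm fbl
      rw [hfun]
    refine ⟨fun i j => hs _ _, fun x hx => ?_, fun x hx i j l => hc x hx _ _ _, ?_, ?_⟩
    · rw [hgm]
      exact (hp x hx).submatrix e.injective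
    · intro x hx i j l m
      have h1 : ∀ y, chrM (b := 0) (k := k) (gm h ψ) i y =
          (Gam (pm (0 + k) h ψ) (Fin.natAdd 0 i) y).submatrix e e := by
        intro y
        unfold chrM Gam
        rw [hgm, Matrix.inv_submatrix_equiv, ← Matrix.submatrix_mul_equiv _ _ _ e]
        congr 1
        ext a c
        simp only [Matrix.of_apply, Matrix.submatrix_apply, cdM, ← hee]
        rfl
      simp only [h1, Matrix.submatrix_apply]
      exact cdb_Gam hWIRT hψ.1.1 hs hp (hcrv _ ψ hψ) hx _ _ _ _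
    · intro x hx i
      congr 1
      funext y
      rw [hlp, hgm, Matrix.det_submatrix_equiv_self]
      rfl

end Pool.Agent.Helper24.HS
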