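import Pool.Agent.Helper10.HS.GoalsL
import Pool.Agent.Helper80.RK.LMAPK
import Pool.Agent.Helper80.RK.LOCPK

/-! # Packet HS-FLE: the developing map in the flat case -/

open Complex Metric Set Filter Topology MeasureTheory
open scoped ContDiff ComplexConjugate ComplexOrder Manifold Matrix

namespace Pool.Agent.Helper24.HS

open Pool.Agent.Helper95.Lin Pool.Agent.Helper16.Abund Pool.Agent.Helper92.Orb
open Pool.Agent.Helper10.SP Pool.Agent.Helper95.RK Pool.Agent.Helper15.RK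
open Pool.Agent.Helper57.HS Pool.Agent.Helper10.RK Pool.Agent.Helper10.HS
open Pool.Agent.Helper80.RK (par_mono iter differentiableOn_map convex_tubeK)

universe u v

lemma cn0 (z z' : Cn 0) : z = z' := Subsingleton.elim z z'

lemma prodK_univ0 {k : ℕ} {U : Set (Cn 0)} (hU : (0 : Cn 0) ∈ U) :
    prodK U (univ : Set (Cn k)) = univ := by
  ext x
  simp only [prodK, mem_setOf_eq, mem_univ, and_true, iff_true]
  rw [cn0 (base x) 0]
  exact hU

lemma tubeK0 {k : ℕ} {U : Set (Cn 0)} (hU : (0 : Cn 0) ∈ U) : tubeK k U = univ := by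
  rw [← prodK_univ, prodK_univ0 hU]

/-- Transition maps between complete special charts, `b = 0`. -/
lemma trans0 (hPARB : S_PARBK.{u, v}) (hIDM : S_IDM.{v}) (hTRS : S_TRSK.{u, v})
    {k : ℕ} {G : Type u} {M : Type v} [Group G] [MulAction G M]
    [TopologicalSpace M] [T2Space M] [ChartedSpace (Fin (0 + k) → ℂ) M]
    [IsManifold 𝓘(ℂ, Fin (0 + k) → ℂ) ω M] {h q : M → Matrix (Fin (0 + k)) (Fin (0 + k)) ℂ}
    {v : M → ℝ} (hD : DataK 0 k G M h v) (hF : FlatFol 0 k G M q v)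
    {U U' : Set (Cn 0)} (hU0 : (0 : Cn 0) ∈ U) (hUo : IsOpen U) (hU'o : IsOpen U')
    (hU'0 : (0 : Cn 0) ∈ U')
    {E E' : Cn (0 + k) → M} {Ψ Ψ' : Cn 0 → ℝ} {Hf Hf' : Cn 0 → Matrix (Fin k) (Fin k) ℂ}
    (hS : SpecK v q U univ E Ψ Hf) (hS' : SpecK v q U' univ E' Ψ' Hf') (γ : G)
    (x x' : Cn (0 + k)) (hxx : γ • E x = E' x') :
    ∃ (A : Matrix (Fin k) (Fin k) ℂ) (β : Cn k), A.det ≠ 0 ∧ fib x' = A *ᵥ fib x + β ∧
      (∀ u w : Cn k, hermi (Hf' 0) (A *ᵥ u) (A *ᵥ w) = hermi (Hf 0) u w) ∧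
      ∀ y : Cn k, γ • E (ptK 0 y) = E' (ptK 0 (A *ᵥ y + β)) := by
  have huU : prodK U (univ : Set (Cn k)) = univ := prodK_univ0 hU0
  have huU' : prodK U' (univ : Set (Cn k)) = univ := prodK_univ0 hU'0
  obtain ⟨ρ, hρ, t, hU, -, hol, hyeq, hpr, hlast⟩ := hTRS hD hF U U' univ univ E E'
    Ψ Ψ' Hf Hf' hUo hU'o isOpen_univ isOpen_univ hS hS' γ x
    (by rw [huU]; trivial) x' (by rw [huU']; trivial) hxx
  have hb : base x = 0 := cn0 _ _
  have hb' : ∀ z : Cn 0, z = 0 := fun z => cn0 _ _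
  rw [hb] at hol hpr hlast
  have hball : (0 : Cn 0) ∈ ball (0 : Cn 0) ρ := mem_ball_self hρ
  have hVu : tubeK k (ball (0 : Cn 0) ρ) = univ := tubeK0 hball
  have hT : DifferentiableOn ℂ t.map univ := by
    rw [← hVu]
    exact differentiableOn_map hol
  have hEpar : Par (0 + k) E univ := by rw [← huU]; exact hS.par
  have hEpar' : Par (0 + k) E' univ := by rw [← huU']; exact hS'.par
  have hf : HoloOn (0 + k) (fun p => γ • E p) univ :=
    ((hPARB hD).2.1 γ univ E hEpar).1.1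
  have hf' : HoloOn (0 + k) (fun p : Cn (0 + k) => E' (t.map p)) univ :=
    ⟨isOpen_univ, hEpar'.1.2.comp hT.mdifferentiableOn (mapsTo_univ _ _)⟩
  have hev : (fun p => γ • E p) =ᶠ[𝓝 x] fun p : Cn (0 + k) => E' (t.map p) := by
    have e2 : ∀ᶠ p in 𝓝 x, fib p ∈ ball (fib x) ρ :=
      ((fbL 0 k).continuous.continuousAt (x := x)).eventually
        (isOpen_ball.mem_nhds (mem_ball_self hρ))
    filter_upwards [e2] with p h2
    have h3 := (hlast (base p) (by rw [hb' (base p)]; exact hball) (fib p) h2).2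
    rw [ptK_base_fib] at h3
    exact h3
  have hEq := hIDM univ _ _ isPreconnected_univ hf hf' x (mem_univ _) hev
  have hP := (hpr 0 hball).2
  refine ⟨t.A 0, t.β 0, hP.detA, ?_, ?_, ?_⟩
  · rw [hyeq]
    unfold TriK.map
    rw [fib_ptK, hb]
    rfl
  · intro u w
    have := hP.herm u w
    rw [hb' (t.g 0)] at this
    exact this
  · intro y
    have h4 := hEq (mem_univ (ptK 0 y))
    have hm : t.map (ptK 0 y) = ptK 0 (t.A 0 *ᵥ y + t.β 0) := by
      unfold TriK.map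
      rw [base_ptK, fib_ptK, hb' (t.g 0)]
      rfl
    simp only [hm] at h4
    exact h4

theorem fle (hFLS : S_FLS.{u, v}) (hEXT : S_EXTSK.{u, v}) (hTRS : S_TRSK.{u, v})
    (hIDM : S_IDM.{v}) (hPAR : S_PARBK.{u, v}) : S_FLE.{u, v} := by
  classical
  intro k G M _ _ _ _ _ _ _ h q v hD hF
  obtain ⟨N, ψ, Ψ, Hf, hN, hsp, hcov⟩ := hFLS hD hF
  obtain ⟨r₀, hr₀, hext⟩ := hEXT hD hF N ψ Ψ Hf hsp hcov
  have h0 : ∀ i, SpecK v q (ball 0 5) (ball 0 5) (ψ i) (Ψ i) (Hf i) := by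
    intro i
    have hi := hsp i
    have s1 : (ball (0 : Cn 0) 5) ⊆ ball 0 6 := ball_subset_ball (by norm_num)
    have s2 : (ball (0 : Cn k) 5) ⊆ ball 0 6 := ball_subset_ball (by norm_num)
    exact ⟨par_mono hi.par (isOpen_prodK isOpen_ball isOpen_ball)
        (fun x hx => ⟨s1 hx.1, s2 hx.2⟩),
      hi.smP.mono s1, fun z hz => hi.pos z (s1 hz), fun x hx => hi.pot x ⟨s1 hx.1, s2 hx.2⟩,
      fun i' j' => (hi.smH i' j').mono s1, fun z hz => hi.posH z (s1 hz),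
      fun x hx => hi.leaf x ⟨s1 hx.1, s2 hx.2⟩⟩
  have hit := fun i => iter v q (Ψ i) (Hf i) r₀ hr₀ (ψ i) (h0 i) (hext i)
  choose E hE1 hE2 hE4 hE3 using hit
  have h5 : (0 : Cn 0) ∈ ball (0 : Cn 0) 5 := mem_ball_self (by norm_num)
  have hS : ∀ i, SpecK v q (ball 0 5) univ (E i) (Ψ i) (Hf i) := fun i =>
    ⟨hE1 i, (h0 i).smP, (h0 i).pos, hE2 i, (h0 i).smH, (h0 i).posH, hE4 i⟩
  have huniv : prodK (ball (0 : Cn 0) 5) (univ : Set (Cn k)) = univ := prodK_univ0 h5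
  have hpar : ∀ i, Par (0 + k) (E i) univ := fun i => by
    have := hE1 i
    rwa [huniv] at this
  have hTr := fun (i j : Fin N) (γ : G) (x x' : Cn (0 + k)) (hx : γ • E i x = E j x') =>
    trans0 hPAR hIDM hTRS hD hF h5 isOpen_ball isOpen_ball h5 (hS i) (hS j) γ x x' hx
  let i₀ : Fin N := ⟨0, hN⟩
  have hop : ∀ i, IsOpen (range (E i)) := by
    intro i
    have := (hPAR hD).2.2.2.1 univ (E i) (hpar i) univ (Subset.refl _) isOpen_univ
    rwa [image_univ] at this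
  have hcl : IsClosed (range (E i₀)) := by
    refine isClosed_of_closure_subset fun p hp => ?_
    obtain ⟨γ, j, x', hx', hγ⟩ := hcov p
    have hx5 : x' ∈ prodK (ball (0 : Cn 0) 5) (ball (0 : Cn k) 5) :=
      ⟨ball_subset_ball (by norm_num) hx'.1, ball_subset_ball (by norm_num) hx'.2⟩
    have hγ' : γ • p = E j x' := by rw [hγ, hE3 j hx5]
    have hnb : (fun y : M => γ • y) ⁻¹' range (E j) ∈ 𝓝 p :=
      ((hop j).preimage ((hPAR hD).2.2.2.2 γ)).mem_nhds ⟨x', hγ'.symm⟩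
    obtain ⟨_, ⟨x'', hx''⟩, ⟨x, rfl⟩⟩ := mem_closure_iff_nhds.1 hp _ hnb
    obtain ⟨A, β, hA, -, -, hall⟩ := hTr i₀ j γ x x'' hx''.symm
    refine ⟨ptK 0 (A⁻¹ *ᵥ (fib x' - β)), ?_⟩
    have h1 := hall (A⁻¹ *ᵥ (fib x' - β))
    have h2 : A *ᵥ (A⁻¹ *ᵥ (fib x' - β)) + β = fib x' := by
      rw [Matrix.mulVec_mulVec, Matrix.mul_nonsing_inv _ (isUnit_iff_ne_zero.2 hA),
        Matrix.one_mulVec, sub_add_cancel]
    rw [h2] at h1
    have h3 : ptK 0 (fib x') = x' := by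
      rw [← cn0 (base x') 0, ptK_base_fib]
    rw [h3, ← hγ'] at h1
    exact MulAction.injective γ h1
  have hsurj : range (E i₀) = univ :=
    IsClopen.eq_univ ⟨hcl, hop i₀⟩ (range_nonempty _)
  refine ⟨E i₀, Hf i₀ 0, hpar i₀, (h0 i₀).posH 0 h5, ?_, ?_, ?_⟩
  · intro x
    have := hE4 i₀ x (by rw [huniv]; trivial)
    rw [this, cn0 (base x) 0]
  · intro p
    obtain ⟨x, hx⟩ : p ∈ range (E i₀) := by rw [hsurj]; trivial
    refine ⟨fib x, ?_⟩
    rw [← hx, ← cn0 (base x) 0, ptK_base_fib]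
  · intro γ w w' hww
    obtain ⟨A, β, hA, h1, h2, h3⟩ := hTr i₀ i₀ γ _ _ hww
    rw [fib_ptK, fib_ptK] at h1
    exact ⟨A, β, hA, h1, h2, h3⟩

end Pool.Agent.Helper24.HS
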