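import Pool.Agent.Helper10.HS.GoalsL
import Pool.Agent.Helper56.RK.BACKK
import Pool.Agent.Helper61.RK.ACBK
import Pool.Agent.Helper45.RK.GoalsJ
import Pool.Agent.Helper24.HS.FLE

/-! # Packet HS-FLF: the end of the flat case -/

open Complex Metric Set Filter Topology MeasureTheory
open scoped ContDiff ComplexConjugate ComplexOrder Manifold Matrix

namespace Pool.Agent.Helper24.HS

open Pool.Agent.Helper95.Lin Pool.Agent.Helper16.Abund Pool.Agent.Helper92.Orb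
open Pool.Agent.Helper10.SP Pool.Agent.Helper95.RK Pool.Agent.Helper15.RK
open Pool.Agent.Helper57.HS Pool.Agent.Helper10.RK Pool.Agent.Helper10.HS
open Pool.Agent.Helper56.RK (lift val jac_mul_act jac_one_act)

universe u v

section backT

variable {b k : ℕ} {G : Type u} {M : Type v} [Group G] [MulAction G M]
  [TopologicalSpace M] [ChartedSpace (Fin (b + k) → ℂ) M]

theorem val_eqT [T2Space M] [IsManifold 𝓘(ℂ, Fin (b + k) → ℂ) ω M]
    {h : M → Matrix (Fin (b + k)) (Fin (b + k)) ℂ}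
    {v : M → ℝ} (hD : DataK b k G M h v) {T : Set (Cn (b + k))}
    {E : Cn (b + k) → M} (hE : Par (b + k) E T) {m : ℕ} {g : Cn (b + k) → ℂ}
    (hg : Sec T (RelT (G := G) T E) m g) {γ γ' : G} {y y' : Cn (b + k)} {p : M}
    (hy : y ∈ T) (hy' : y' ∈ T) (e : γ • p = E y)
    (e' : γ' • p = E y') : val E g m γ y p = val E g m γ' y' p := by
  obtain ⟨δ, hδ⟩ : ∃ δ : G, δ = γ' * γ⁻¹ := ⟨_, rfl⟩
  have hγ' : γ' = δ * γ := by rw [hδ, inv_mul_cancel_right]
  have h1 : δ • E y = E y' := by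
    rw [← e, smul_smul, ← hγ', e']
  obtain ⟨U, τ, hU, hyU, hUT, hτ, hmaps, hτy, hrel⟩ := lift hD hE hE hy hy' h1
  have hArr : Arr (RelT (G := G) T E) U τ :=
    ⟨hU, hτ, δ, fun x hx => ⟨hUT hx, hmaps hx, (hrel x hx).1⟩⟩
  have h2 := hg.2 U τ hArr y hyU
  have h3 := (hrel y hyU).2
  rw [hτy] at h2 h3
  have n1 := hE.2 y hy
  have n2 := hE.2 y' hy'
  have h4 := jac_mul_act (b := b) (k := k) hD.act.holo δ γ p
  rw [← hγ', e] at h4
  unfold val
  rw [h2, h4, mul_assoc, ← mul_pow]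
  congr 2
  field_simp
  linear_combination (-jac (b + k) (fun y : M => γ • y) p) * h3


/-- From sections over `T` to canonical forms on `M`. -/
theorem backT [T2Space M] [IsManifold 𝓘(ℂ, Fin (b + k) → ℂ) ω M]
    {h : M → Matrix (Fin (b + k)) (Fin (b + k)) ℂ}
    {v : M → ℝ} (hD : DataK b k G M h v) {T : Set (Cn (b + k))}
    {E : Cn (b + k) → M} (hE : Par (b + k) E T)
    (hcov : ∀ p : M, ∃ (γ : G) (y : Cn (b + k)), y ∈ T ∧ γ • p = E y) {m : ℕ}
    {g : Cn (b + k) → ℂ} (hg : Sec T (RelT (G := G) T E) m g) (hgd : DifferentiableOn ℂ g T) :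
    ∃ f : M → ℂ, InvForm (b + k) (⊤ : Subgroup G) m f ∧
      ∀ y ∈ T, g y ≠ 0 → f (E y) ≠ 0 := by
  choose γs ys hys hγs using hcov
  obtain ⟨f, hf⟩ : ∃ f : M → ℂ, f = fun p => val E g m (γs p) (ys p) p := ⟨_, rfl⟩
  have hfv : ∀ (p : M) (γ : G) (y : Cn (b + k)), y ∈ T → γ • p = E y →
      f p = val E g m γ y p := by
    intro p γ y hy e
    rw [hf]
    exact val_eqT hD hE hg (hys p) hy (hγs p) e
  refine ⟨f, ⟨?_, ?_⟩, ?_⟩
  · intro V ψ hV hψ z₀ hz₀
    obtain ⟨χ, hχ⟩ : ∃ χ : OpenPartialHomeomorph M (Fin (b + k) → ℂ),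
      χ = chartAt (Fin (b + k) → ℂ) (ψ z₀) := ⟨_, rfl⟩
    have hsym : MDifferentiableOn 𝓘(ℂ, Fin (b + k) → ℂ) 𝓘(ℂ, Fin (b + k) → ℂ) χ.symm
        χ.target := by
      rw [hχ]
      exact mdiff_chart_symm _
    have hch : MDifferentiableOn 𝓘(ℂ, Fin (b + k) → ℂ) 𝓘(ℂ, Fin (b + k) → ℂ) χ χ.source := by
      rw [hχ]
      exact mdiff_chart _
    have hpar : Par (b + k) χ.symm χ.target := by
      refine ⟨⟨χ.open_target, hsym⟩, fun z hz => ?_⟩
      rw [hχ] at hz ⊢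
      exact jac_chart_symm_ne_zero _ hz
    have hs₀ : ψ z₀ ∈ χ.source := by
      rw [hχ]
      exact mem_chart_source _ _
    have ht₀ : χ (ψ z₀) ∈ χ.target := χ.map_source hs₀
    have e₀ : γs (ψ z₀) • χ.symm (χ (ψ z₀)) = E (ys (ψ z₀)) := by
      rw [χ.left_inv hs₀]
      exact hγs _
    obtain ⟨U, τ, hU, hxU, hUV, hτ, hmaps, hτx, hrel⟩ := lift hD hE hpar ht₀
      (hys (ψ z₀)) e₀
    have hF : ∀ q ∈ U, f (χ.symm q) * jac (b + k) χ.symm q ^ m =
        g (τ q) * (fderiv ℂ τ q).det ^ m := by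
      intro q hq
      obtain ⟨h1, h2⟩ := hrel q hq
      rw [hfv _ _ _ (hmaps hq) h1]
      unfold val
      rw [mul_assoc, ← mul_pow, mul_assoc, h2, ← mul_assoc,
        inv_mul_cancel₀ (hE.2 _ (hmaps hq)), one_mul]
    have hFd : DifferentiableOn ℂ (fun q => g (τ q) * (fderiv ℂ τ q).det ^ m) U :=
      (hgd.comp hτ hmaps).mul
        ((Pool.Agent.Helper10.Abund.differentiableOn_det_fderiv hU hτ).pow m)
    have hψc : ContinuousAt ψ z₀ := (hψ.mdifferentiableAt (hV.mem_nhds hz₀)).continuousAt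
    have hsrc : ∀ᶠ z in 𝓝 z₀, ψ z ∈ χ.source :=
      hψc.preimage_mem_nhds (χ.open_source.mem_nhds hs₀)
    have hUn : ∀ᶠ z in 𝓝 z₀, χ (ψ z) ∈ U :=
      ((χ.continuousAt hs₀).comp hψc).preimage_mem_nhds (hU.mem_nhds hxU)
    obtain ⟨V₁, hV₁sub, hV₁o, hz₀V₁⟩ := _root_.mem_nhds_iff.1
      (Filter.inter_mem (hV.mem_nhds hz₀) (hsrc.and hUn))
    have hψat : ∀ z ∈ V₁, MDifferentiableAt 𝓘(ℂ, Fin (b + k) → ℂ) 𝓘(ℂ, Fin (b + k) → ℂ) ψ z :=
      fun z hz => hψ.mdifferentiableAt (hV.mem_nhds (hV₁sub hz).1)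
    have hχψ : ∀ z ∈ V₁, MDifferentiableAt 𝓘(ℂ, Fin (b + k) → ℂ) 𝓘(ℂ, Fin (b + k) → ℂ)
        (χ ∘ ψ) z := fun z hz =>
      (hch.mdifferentiableAt (χ.open_source.mem_nhds (hV₁sub hz).2.1)).comp z (hψat z hz)
    have hh : DifferentiableOn ℂ (χ ∘ ψ) V₁ := fun z hz =>
      (hχψ z hz).differentiableAt.differentiableWithinAt
    have hfin : DifferentiableOn ℂ (fun z => (g (τ (χ (ψ z))) *
        (fderiv ℂ τ (χ (ψ z))).det ^ m) * (fderiv ℂ (χ ∘ ψ) z).det ^ m) V₁ :=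
      (hFd.comp hh fun z hz => (hV₁sub hz).2.2).mul
        ((Pool.Agent.Helper10.Abund.differentiableOn_det_fderiv hV₁o hh).pow m)
    have hcg : DifferentiableOn ℂ (fun z => f (ψ z) * jac (b + k) ψ z ^ m) V₁ := by
      refine hfin.congr fun z hz => ?_
      have h1 := (hV₁sub hz).2.1
      have h2 := (hV₁sub hz).2.2
      have h3 : χ.symm (χ (ψ z)) = ψ z := χ.left_inv h1
      have h4 : MDifferentiableAt 𝓘(ℂ, Fin (b + k) → ℂ) 𝓘(ℂ, Fin (b + k) → ℂ) χ.symm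
          ((χ ∘ ψ) z) :=
        hsym.mdifferentiableAt (χ.open_target.mem_nhds (χ.map_source h1))
      have h5 : ψ =ᶠ[𝓝 z] χ.symm ∘ (χ ∘ ψ) := by
        filter_upwards [hV₁o.mem_nhds hz] with z' hz'
        exact (χ.left_inv (hV₁sub hz').2.1).symm
      have h6 : jac (b + k) ψ z = jac (b + k) χ.symm (χ (ψ z)) *
          (fderiv ℂ (χ ∘ ψ) z).det := by
        rw [jac_congr h5, jac_comp h4 (hχψ z hz), jac_eq_fderiv]
        rfl
      have h7 := hF _ h2
      rw [h3] at h7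
      rw [h6, mul_pow, ← mul_assoc, h7]
    exact (hcg.differentiableAt (hV₁o.mem_nhds hz₀V₁)).differentiableWithinAt
  · intro γ _ x
    have h1 := hys (γ • x)
    have h2 := hγs (γ • x)
    have h3 : (γs (γ • x) * γ) • x = E (ys (γ • x)) := by rw [mul_smul]; exact h2
    rw [hfv x _ _ h1 h3, hfv (γ • x) _ _ h1 h2]
    unfold val
    rw [jac_mul_act (b := b) (k := k) hD.act.holo, mul_assoc, ← mul_pow]
    ring
  · intro y hy hgy
    rw [hfv (E y) 1 y hy (one_smul _ _)]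
    unfold val
    rw [jac_one_act, mul_one]
    exact mul_ne_zero hgy (pow_ne_zero _ (inv_ne_zero (hE.2 y hy)))


end backT

/-! ## Local injectivity -/

lemma linj {k : ℕ} {G : Type u} {M : Type v} [Group G] [MulAction G M]
    [TopologicalSpace M] [T2Space M] [ChartedSpace (Fin (0 + k) → ℂ) M]
    [IsManifold 𝓘(ℂ, Fin (0 + k) → ℂ) ω M] {h : M → Matrix (Fin (0 + k)) (Fin (0 + k)) ℂ}
    {v : M → ℝ} (hPAR : S_PARBK.{u, v}) (hD : DataK 0 k G M h v) {E : Cn (0 + k) → M}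
    (hE : Par (0 + k) E univ) (x : Cn (0 + k)) : ∃ U ∈ 𝓝 x, InjOn E U := by
  obtain ⟨τ, U, W, hU, hW, hxU, hxW, -, -, -, -, -, -, -, hrel⟩ :=
    (hPAR hD).2.2.1 univ univ E E hE hE 1 x (mem_univ _) x (mem_univ _) (one_smul _ _)
  refine ⟨U ∩ W, Filter.inter_mem (hU.mem_nhds hxU) (hW.mem_nhds hxW), ?_⟩
  intro y hy y' hy' he
  have h1 : y' = τ y := (hrel y hy.1 y' hy'.2).1 (by rw [one_smul]; exact he)
  have h2 : y = τ y := (hrel y hy.1 y hy.2).1 (one_smul _ _)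
  rw [h1]
  exact h2

lemma continuous_ptK0 (k : ℕ) : Continuous fun w : Cn k => (ptK (0 : Cn 0) w : Cn (0 + k)) :=
  (ptL 0 k).continuous.comp ((continuous_const (y := (0 : Cn 0))).prodMk continuous_id)

lemma ptK0_fib {k : ℕ} (x : Cn (0 + k)) : ptK (0 : Cn 0) (fib x) = x := by
  rw [← cn0 (base x) 0, ptK_base_fib]

/-- A fibre of `E` meets a ball in a finite set. -/
lemma fin_fib {k : ℕ} {M : Type v} [TopologicalSpace M] [T2Space M]
    {E : Cn (0 + k) → M} (hEc : Continuous E) (hl : ∀ x, ∃ U ∈ 𝓝 x, InjOn E U) (r : ℝ) (m : M) :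
    {β : Cn k | ‖β‖ ≤ r ∧ E (ptK 0 β) = m}.Finite := by
  by_contra hinf
  have hinf' : {β : Cn k | ‖β‖ ≤ r ∧ E (ptK 0 β) = m}.Infinite := hinf
  obtain ⟨β₀, -, hβ₀⟩ := hinf'.exists_accPt_of_subset_isCompact
    (isCompact_closedBall (0 : Cn k) r) (fun β hβ => by
      rw [mem_closedBall_zero_iff]; exact hβ.1)
  have hcl : IsClosed {β : Cn k | E (ptK 0 β) = m} :=
    isClosed_eq (hEc.comp (continuous_ptK0 k)) continuous_const
  have hmem : E (ptK 0 β₀) = m := by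
    have h1 : β₀ ∈ closure {β : Cn k | ‖β‖ ≤ r ∧ E (ptK 0 β) = m} :=
      mem_closure_iff_clusterPt.2 (hβ₀.clusterPt)
    exact hcl.closure_subset_iff.2 (fun β hβ => hβ.2) h1
  obtain ⟨U, hU, hinj⟩ := hl (ptK 0 β₀)
  have hU' : (fun w : Cn k => (ptK (0 : Cn 0) w : Cn (0 + k))) ⁻¹' U ∈ 𝓝 β₀ :=
    (continuous_ptK0 k).continuousAt.preimage_mem_nhds hU
  obtain ⟨y, hy, hne⟩ := accPt_iff_nhds.1 hβ₀ _ hU'
  apply hne
  have h2 : ptK (0 : Cn 0) y = ptK 0 β₀ := by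
    refine hinj hy.1 (mem_of_mem_nhds hU) ?_
    rw [hy.2.2, hmem]
  have h3 := congrArg fib h2
  simpa using h3

lemma mat_eq_of_eventually {k : ℕ} {A A' : Matrix (Fin k) (Fin k) ℂ}
    (h : ∀ᶠ y in 𝓝 (0 : Cn k), A *ᵥ y = A' *ᵥ y) : A = A' := by
  have key : ∀ w : Cn k, A *ᵥ w = A' *ᵥ w := by
    intro w
    have hc : Tendsto (fun t : ℂ => t • w) (𝓝 0) (𝓝 (0 : Cn k)) := by
      have : Continuous fun t : ℂ => t • w := by fun_prop
      simpa using this.tendsto 0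
    have h1 : ∀ᶠ t in 𝓝[≠] (0 : ℂ), A *ᵥ (t • w) = A' *ᵥ (t • w) :=
      (hc.eventually h).filter_mono nhdsWithin_le_nhds
    obtain ⟨t, ht, ht0⟩ := (h1.and self_mem_nhdsWithin).exists
    rw [Matrix.mulVec_smul, Matrix.mulVec_smul] at ht
    exact smul_right_injective _ ht0 ht
  ext i j
  have := congrFun (key (Pi.single j 1)) i
  simpa using this

/-- The determinant of `x ↦ (0, A (fib x))`. -/
lemma det_fibmap {k : ℕ} (A : Matrix (Fin k) (Fin k) ℂ) (β : Cn k) (x : Cn (0 + k)) :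
    (fderiv ℂ (fun y : Cn (0 + k) => (ptK (0 : Cn 0) (A *ᵥ fib y + β) : Cn (0 + k))) x).det =
      A.det := by
  set L : Cn (0 + k) →L[ℂ] Cn (0 + k) :=
    (ptL 0 k).comp ((0 : Cn (0 + k) →L[ℂ] Cn 0).prod
      ((LinearMap.toContinuousLinearMap (Matrix.toLin' A)).comp (fbL 0 k))) with hL
  have hLa : ∀ y, L y = ptK (0 : Cn 0) (A *ᵥ fib y) := by
    intro y
    simp [hL]
  have hf : (fun y : Cn (0 + k) => (ptK (0 : Cn 0) (A *ᵥ fib y + β) : Cn (0 + k))) =
      fun y => L y + ptK 0 β := by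
    funext y
    rw [hLa, ← ptK_add, add_zero]
  rw [hf, fderiv_add_const, ContinuousLinearMap.fderiv]
  have e : Fin (0 + k) ≃ Fin k := finCongr (zero_add k)
  have h1 : LinearMap.toMatrix' (L : Cn (0 + k) →ₗ[ℂ] Cn (0 + k)) =
      A.submatrix (finCongr (zero_add k)) (finCongr (zero_add k)) := by
    ext i j
    rw [LinearMap.toMatrix'_apply, Matrix.submatrix_apply]
    refine Fin.addCases (fun a => a.elim0) (fun i' => ?_) i
    refine Fin.addCases (fun a => a.elim0) (fun j' => ?_) j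
    have h2 : finCongr (zero_add k) (Fin.natAdd 0 i') = i' := by
      ext; simp
    have h3 : finCongr (zero_add k) (Fin.natAdd 0 j') = j' := by
      ext; simp
    rw [h2, h3]
    have h4 : (fun j'_1 => if j'_1 = Fin.natAdd 0 j' then (1 : ℂ) else 0) =
        (ef 0 j' : Cn (0 + k)) := by
      funext l
      simp [ef, Pi.single_apply]
    have h5 : (Pi.single (Fin.natAdd 0 j') (1 : ℂ) : Cn (0 + k)) = ef 0 j' := rfl
    simp only [h5, ContinuousLinearMap.coe_coe]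
    rw [hLa, ptK_natAdd, fib_ef]
    simp
  show LinearMap.det (L : Cn (0 + k) →ₗ[ℂ] Cn (0 + k)) = A.det
  rw [← LinearMap.det_toMatrix', h1, Matrix.det_submatrix_equiv_self]

/-- Powers in a finite set of invertible matrices. -/
lemma pow_fac {k : ℕ} {S : Set (Matrix (Fin k) (Fin k) ℂ)} (hS : S.Finite)
    {A : Matrix (Fin k) (Fin k) ℂ} (hA : A.det ≠ 0) (hp : ∀ j : ℕ, A ^ j ∈ S) :
    A ^ (S.ncard).factorial = 1 := by
  classical
  have hcard : Fintype.card (Fin (S.ncard + 1)) > hS.toFinset.card := by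
    rw [Fintype.card_fin, ← Set.ncard_eq_toFinset_card S hS]
    exact Nat.lt_succ_self _
  obtain ⟨i, -, j, -, hij, he⟩ := Finset.exists_ne_map_eq_of_card_lt_of_maps_to
    (s := (Finset.univ : Finset (Fin (S.ncard + 1)))) (t := hS.toFinset)
    (by rw [Finset.card_univ]; exact hcard) (f := fun i => A ^ (i : ℕ))
    (fun i _ => by simpa using hp i)
  have key : ∀ a b : ℕ, a < b → b ≤ S.ncard → A ^ a = A ^ b → A ^ (S.ncard).factorial = 1 := by
    intro a b hab hb he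
    have hu : IsUnit (A ^ a) := by
      refine IsUnit.pow _ ?_
      rw [Matrix.isUnit_iff_isUnit_det]
      exact isUnit_iff_ne_zero.2 hA
    have h1 : A ^ (b - a) = 1 := by
      have h2 : A ^ a * A ^ (b - a) = A ^ a * 1 := by
        rw [← pow_add, Nat.add_sub_cancel' hab.le, mul_one, he]
      exact hu.mul_left_cancel h2
    have h3 : (b - a) ∣ (S.ncard).factorial :=
      Nat.dvd_factorial (by omega) (by omega)
    obtain ⟨c, hc⟩ := h3
    rw [hc, pow_mul, h1, one_pow]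
  have hi := i.2
  have hj := j.2
  rcases lt_or_gt_of_ne (fun h => hij (Fin.ext h) : (i : ℕ) ≠ j) with h | h
  · exact key i j h (by omega) he
  · exact key j i h (by omega) he.symm

theorem flf (hFLE : S_FLE.{u, v}) (hAFB : Pool.Agent.Helper45.RK.S_AFB)
    (hPAR : S_PARBK.{u, v}) : S_FLF.{u, v} := by
  classical
  intro k G M _ _ _ _ _ _ _ h q v hD hF
  obtain ⟨E, Hf, hE, hHf, hleaf, hsurj, htr⟩ := hFLE hD hF
  have hl : ∀ x, ∃ U ∈ 𝓝 x, InjOn E U := linj hPAR hD hE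
  have hEc : Continuous E := by
    rw [continuous_iff_continuousAt]
    intro x
    exact (hE.1.2.mdifferentiableAt (isOpen_univ.mem_nhds (mem_univ x))).continuousAt
  obtain ⟨𝒢, h𝒢⟩ : ∃ 𝒢 : Set (Matrix (Fin k) (Fin k) ℂ × Cn k), 𝒢 = {p | p.1.det ≠ 0 ∧
    (∀ u w : Cn k, hermi Hf (p.1 *ᵥ u) (p.1 *ᵥ w) = hermi Hf u w) ∧
    ∃ γ : G, ∀ y : Cn k, γ • E (ptK 0 y) = E (ptK 0 (p.1 *ᵥ y + p.2))} := ⟨_, rfl⟩
  have hmem : ∀ p, p ∈ 𝒢 ↔ p.1.det ≠ 0 ∧
    (∀ u w : Cn k, hermi Hf (p.1 *ᵥ u) (p.1 *ᵥ w) = hermi Hf u w) ∧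
    ∃ γ : G, ∀ y : Cn k, γ • E (ptK 0 y) = E (ptK 0 (p.1 *ᵥ y + p.2)) := by
    intro p
    rw [h𝒢]
    rfl
  have htr' : ∀ (γ : G) (x x' : Cn (0 + k)), γ • E x = E x' →
      ∃ (A : Matrix (Fin k) (Fin k) ℂ) (β : Cn k), (A, β) ∈ 𝒢 ∧ fib x' = A *ᵥ fib x + β ∧
        ∀ y : Cn k, γ • E (ptK 0 y) = E (ptK 0 (A *ᵥ y + β)) := by
    intro γ x x' hx
    obtain ⟨A, β, h1, h2, h3, h4⟩ := htr γ (fib x) (fib x') (by rw [ptK0_fib, ptK0_fib]; exact hx)
    exact ⟨A, β, (hmem _).2 ⟨h1, h3, γ, h4⟩, h2, h4⟩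
  -- the group
  have hAS : Pool.Agent.Helper45.RK.AffSet 𝒢 := by
    refine ⟨?_, ?_, ?_, ?_, ?_, ?_⟩
    · rw [hmem]
      refine ⟨by simp, fun u w => by simp, 1, fun y => by simp⟩
    · intro p hp p' hp'
      rw [hmem] at hp hp' ⊢
      obtain ⟨h1, h2, γ, h3⟩ := hp
      obtain ⟨h1', h2', γ', h3'⟩ := hp'
      refine ⟨?_, ?_, γ * γ', ?_⟩
      · simp only [Matrix.det_mul]
        exact mul_ne_zero h1 h1'
      · intro u w
        simp only [← Matrix.mulVec_mulVec]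
        rw [h2, h2']
      · intro y
        rw [mul_smul, h3', h3]
        simp only [Matrix.mulVec_add, Matrix.mulVec_mulVec, add_assoc]
    · intro p hp
      rw [hmem] at hp
      obtain ⟨h1, h2, γ, h3⟩ := hp
      have hu : IsUnit p.1.det := isUnit_iff_ne_zero.2 h1
      refine ⟨(p.1⁻¹, - (p.1⁻¹ *ᵥ p.2)), ?_, ?_, ?_⟩
      · rw [hmem]
        refine ⟨?_, ?_, γ⁻¹, ?_⟩
        · simp only [Matrix.det_nonsing_inv]
          rw [Ring.inverse_eq_inv']
          exact inv_ne_zero h1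
        · intro u w
          simp only
          rw [← h2 (p.1⁻¹ *ᵥ u) (p.1⁻¹ *ᵥ w), Matrix.mulVec_mulVec, Matrix.mulVec_mulVec,
            Matrix.mul_nonsing_inv _ hu, Matrix.one_mulVec, Matrix.one_mulVec]
        · intro y
          have h4 := h3 (p.1⁻¹ *ᵥ y + -(p.1⁻¹ *ᵥ p.2))
          rw [inv_smul_eq_iff, h4]
          congr 2
          rw [Matrix.mulVec_add, Matrix.mulVec_neg, Matrix.mulVec_mulVec, Matrix.mulVec_mulVec,
            Matrix.mul_nonsing_inv _ hu, Matrix.one_mulVec, Matrix.one_mulVec]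
          abel
      · exact Matrix.nonsing_inv_mul _ hu
      · simp
    · obtain ⟨c, C, hc, hC, hb⟩ := Pool.Agent.Helper61.RK.hf_bd (b := 0) (k := k) (U := univ)
        (K := {(0 : Cn 0)}) (Hf := fun _ => Hf) isCompact_singleton (subset_univ _)
        (fun i j => continuousOn_const) (fun z _ => hHf)
      have hb' := hb 0 rfl
      refine ⟨Real.sqrt (C / c), fun p hp u => ?_⟩
      obtain ⟨-, h2, -⟩ := (hmem p).1 hp
      have h3 := (hb' (p.1 *ᵥ u)).1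
      rw [h2 u u] at h3
      have h4 := (hb' u).2
      have h5 : ‖p.1 *ᵥ u‖ ^ 2 ≤ (C / c) * ‖u‖ ^ 2 := by
        rw [div_mul_eq_mul_div, le_div_iff₀ hc]
        linarith
      have h6 : 0 ≤ C / c := by positivity
      refine abs_le_of_sq_le_sq' ?_ (by positivity) |>.2
      rw [mul_pow, Real.sq_sqrt h6]
      exact h5
    · intro r
      -- properness
      obtain ⟨K, hK⟩ : ∃ K : Set M, K = (fun w : Cn k => E (ptK 0 w)) '' closedBall 0 (max r 0) :=
        ⟨_, rfl⟩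
      have hKc : IsCompact K := by
        rw [hK]
        exact (isCompact_closedBall _ _).image (hEc.comp (continuous_ptK0 k))
      have hfin := hD.proper K hKc
      have hsub : {p | p ∈ 𝒢 ∧ ‖p.2‖ ≤ r} ⊆ ⋃ γ ∈ {γ : G | ∃ y ∈ K, γ • y ∈ K},
          {p : Matrix (Fin k) (Fin k) ℂ × Cn k | ‖p.2‖ ≤ r ∧
            ∀ y : Cn k, γ • E (ptK 0 y) = E (ptK 0 (p.1 *ᵥ y + p.2))} := by
        rintro p ⟨hp, hpr⟩
        obtain ⟨-, -, γ, h3⟩ := (hmem p).1 hp
        refine mem_biUnion (x := γ) ?_ ⟨hpr, h3⟩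
        refine ⟨E (ptK 0 0), ?_, ?_⟩
        · rw [hK]
          exact ⟨0, by simp, rfl⟩
        · rw [h3 0, Matrix.mulVec_zero, zero_add, hK]
          refine ⟨p.2, ?_, rfl⟩
          rw [mem_closedBall_zero_iff]
          exact hpr.trans (le_max_left _ _)
      refine (hfin.biUnion fun γ _ => ?_).subset hsub
      refine Set.Finite.of_finite_image (f := Prod.snd)
        ((fin_fib hEc hl r (γ • E (ptK 0 0))).subset ?_) ?_
      · rintro _ ⟨p, ⟨hp1, hp2⟩, rfl⟩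
        refine ⟨hp1, ?_⟩
        rw [hp2 0, Matrix.mulVec_zero, zero_add]
      · rintro ⟨A, β⟩ ⟨-, hp2⟩ ⟨A', β'⟩ ⟨-, hp2'⟩ hββ
        simp only at hββ hp2 hp2'
        subst hββ
        obtain ⟨U, hU, hinj⟩ := hl (ptK 0 β)
        have hc1 : ∀ B : Matrix (Fin k) (Fin k) ℂ, ∀ᶠ y in 𝓝 (0 : Cn k),
            ptK (0 : Cn 0) (B *ᵥ y + β) ∈ U := by
          intro B
          have hcont : Continuous fun y : Cn k => (ptK (0 : Cn 0) (B *ᵥ y + β) : Cn (0 + k)) :=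
            (continuous_ptK0 k).comp
              ((Continuous.matrix_mulVec continuous_const continuous_id).add continuous_const)
          refine hcont.continuousAt.preimage_mem_nhds ?_
          simpa using hU
        have hAA : A = A' := by
          refine mat_eq_of_eventually ?_
          filter_upwards [hc1 A, hc1 A'] with y h1 h2
          have h3 := hinj h1 h2 (by rw [← hp2 y, ← hp2' y])
          have h4 := congrArg fib h3
          simpa using h4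
        rw [hAA]
    · obtain ⟨K, hKc, hK⟩ := hD.act.cocompact
      -- open increasing cover
      have hopen : ∀ n : ℕ, IsOpen (E '' {x : Cn (0 + k) | ‖fib x‖ < n}) := by
        intro n
        refine (hPAR hD).2.2.2.1 univ E hE _ (subset_univ _) ?_
        exact isOpen_lt ((fbL 0 k).continuous.norm) continuous_const
      obtain ⟨n, hn⟩ := hKc.elim_directed_cover (fun n : ℕ => E '' {x | ‖fib x‖ < n}) hopen
        (fun p _ => by
          obtain ⟨w, hw⟩ := hsurj p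
          obtain ⟨n, hn⟩ := exists_nat_gt ‖w‖
          exact mem_iUnion.2 ⟨n, ptK 0 w, by simpa using hn, hw⟩)
        (Monotone.directed_le fun a b hab => image_mono fun x (hx : ‖fib x‖ < (a : ℝ)) =>
          show ‖fib x‖ < (b : ℝ) from lt_of_lt_of_le hx (Nat.cast_le.2 hab))
      refine ⟨n, fun w => ?_⟩
      obtain ⟨γ, hγ⟩ := hK (E (ptK 0 w))
      obtain ⟨x, hx, hxe⟩ := hn hγ
      obtain ⟨A, β, hAm, h2, -⟩ := htr' γ (ptK 0 w) x hxe.symm
      refine ⟨(A, β), hAm, ?_⟩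
      rw [fib_ptK] at h2
      simp only
      rw [← h2]
      exact le_of_lt hx
  obtain ⟨hSfin, -⟩ := hAFB hAS
  obtain ⟨s, hs⟩ : ∃ s : ℕ, s = ({M | ∃ v, (M, v) ∈ 𝒢} : Set (Matrix (Fin k) (Fin k) ℂ)).ncard.factorial :=
    ⟨_, rfl⟩
  have hdet : ∀ p ∈ 𝒢, p.1.det ^ s = 1 := by
    intro p hp
    have hpow : ∀ j : ℕ, ∃ v, (p.1 ^ j, v) ∈ 𝒢 := by
      intro j
      induction j with
      | zero => exact ⟨0, by simpa using hAS.one⟩
      | succ j ih =>
        obtain ⟨v, hv⟩ := ih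
        exact ⟨_, by rw [pow_succ]; exact hAS.mul _ hv _ hp⟩
    have := pow_fac hSfin ((hmem p).1 hp).1 hpow
    rw [← hs] at this
    rw [← Matrix.det_pow, this, Matrix.det_one]
  -- the section
  have hg : Sec univ (RelT (G := G) univ E) s (fun _ => (1 : ℂ)) := by
    refine ⟨contDiffOn_const, ?_⟩
    rintro U τ ⟨hU, hτ, γ, hR⟩ x hx
    obtain ⟨A, β, hAm, h2, h3⟩ := htr' γ x (τ x) (hR x hx).2.2
    have hτx : ptK (0 : Cn 0) (A *ᵥ fib x + β) = τ x := by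
      rw [← h2, ptK0_fib]
    obtain ⟨V, hV, hinj⟩ := hl (τ x)
    have hcont : Continuous fun y : Cn (0 + k) =>
        (ptK (0 : Cn 0) (A *ᵥ fib y + β) : Cn (0 + k)) :=
      (continuous_ptK0 k).comp
        ((Continuous.matrix_mulVec continuous_const (fbL 0 k).continuous).add continuous_const)
    have e1 : ∀ᶠ y in 𝓝 x, ptK (0 : Cn 0) (A *ᵥ fib y + β) ∈ V := by
      refine hcont.continuousAt.preimage_mem_nhds ?_
      rw [hτx]
      exact hV
    have e2 : ∀ᶠ y in 𝓝 x, τ y ∈ V :=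
      ((hτ.differentiableAt (hU.mem_nhds hx)).continuousAt).preimage_mem_nhds hV
    have e3 : τ =ᶠ[𝓝 x] fun y : Cn (0 + k) =>
        (ptK (0 : Cn 0) (A *ᵥ fib y + β) : Cn (0 + k)) := by
      filter_upwards [e1, e2, hU.mem_nhds hx] with y h4 h5 h6
      refine hinj h5 h4 ?_
      rw [← (hR y h6).2.2, ← h3 (fib y), ptK0_fib]
    rw [e3.fderiv_eq, det_fibmap, one_mul]
    exact (hdet _ hAm).symm
  obtain ⟨f, hf, hf0⟩ := backT hD hE (m := s) (g := fun _ => (1 : ℂ))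
    (fun p => by
      obtain ⟨w, hw⟩ := hsurj p
      exact ⟨1, ptK 0 w, mem_univ _, by rw [one_smul, hw]⟩) hg (differentiableOn_const _)
  refine ⟨s, ?_, fun x => ⟨f, hf, ?_⟩⟩
  · rw [hs]
    exact Nat.one_le_iff_ne_zero.2 (Nat.factorial_ne_zero _)
  · obtain ⟨w, hw⟩ := hsurj x
    rw [← hw]
    exact hf0 _ (mem_univ _) one_ne_zero

end Pool.Agent.Helper24.HS
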